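import Pool.Agent.helper59.FI.SpecB2

set_option autoImplicit false

namespace Pool.Agent.FI

open Pool.Agent.helper58.DC Pool.Agent.DI Pool.Agent.GR Pool.Agent.OB

theorem UNI_comp {p n : ℕ} (hp : p.Prime) (hn : n ≠ 0) : ¬ p ∣ n / p ^ padicValNat p n := by
  rw [← Nat.factorization_def n hp]
  exact Nat.not_dvd_ordCompl hp hn

theorem UNI (hFWA : FWA_stmt) (hBET : BET_stmt) (hDFL : DFL_stmt) (hALP : ALP_stmt) : UNI_stmt := by
  intro p M hS G _ _ D x θ χ hRt P hP ψ hψ hθψ θ' hθ' hθ'ψ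
  obtain ⟨x', hx', _, hdef⟩ := hDFL p M hS G D x θ χ hRt P hP ψ hψ hθψ
  have hLD : cz P ⊓ cz D = cz D := inf_eq_right.2 (cz_mono hP)
  have h1 := hALP p M hS G (cz P) D x' ψ hdef hRt.com θ (by rw [hLD]; exact hRt.th) hθψ
  rw [hLD] at h1
  obtain ⟨w, hw, _, _, hcard, hnin, _⟩ := h1
  obtain ⟨q, q1, q2, _, q4, q5⟩ := hFWA p M hS G (cz P) D hRt.dfa.pgrp hRt.com (cz_mono hP) θ hRt.th w hw
  by_contra hcon
  have h2 : InM M (cc θ' q) := by
    apply q4 θ' hθ'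
    intro n hn hn' hsb
    exact hcon ⟨n, hn, hn', hsb⟩
  have h3 := SBIb hS hθψ q1 q2
  have h4 := SBIb hS hθ'ψ q1 q2
  have h5 : InM M (cc θ q) := by
    have e : cc θ q = (cc θ q - cc ψ q) - (cc θ' q - cc ψ q) + cc θ' q := by ring
    rw [e]
    exact InM.add hS (InM.sub hS h3 h4) h2
  obtain ⟨N1, hN1⟩ : ∃ N1, N1 = (cz D).relIndex (TT M D θ ⊓ cz P) := ⟨_, rfl⟩
  obtain ⟨N2, hN2⟩ : ∃ N2, N2 = Nat.card (Cz (cz D) w) / Nat.card D := ⟨_, rfl⟩
  rw [← hN1, ← hN2] at q5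
  have h6 : InM M ((N1 : ℂ) * (N2 : ℂ) * cc θ (cls (cz D) w)) := by
    have e : (N1 : ℂ) * (N2 : ℂ) * cc θ (cls (cz D) w) = cc θ q - (cc θ q - (N1 : ℂ) * (N2 : ℂ) * cc θ (cls (cz D) w)) := by ring
    rw [e]
    exact InM.sub hS h5 q5
  have hint : IntAt M (cc θ (cls (cz D) w)) := IntAt.of_isIntegral hS (cc_cls_int le_rfl hRt.th w)
  rcases InM.or hS (IntAt.mul hS (IntAt.natCast hS N1) (IntAt.natCast hS N2)) hint h6 with h7 | h7
  · rcases InM.or hS (IntAt.natCast hS N1) (IntAt.natCast hS N2) h7 with h8 | h8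
    · have h9 := (InM.natCast hS N1).1 h8
      apply hBET p M hS G D x θ χ hRt
      have h10 := Subgroup.relIndex_mul_relIndex (cz D) (TT M D θ ⊓ cz P) (TT M D θ) (le_inf cz_le_TT (cz_mono hP)) inf_le_left
      rw [← h10, ← hN1]
      exact Dvd.dvd.mul_right h9 _
    · have h9 := (InM.natCast hS N2).1 h8
      rw [hN2, hcard] at h9
      unfold pp at h9
      exact UNI_comp hS.pr (Nat.card_pos).ne' h9
  · exact hnin h7

end Pool.Agent.FI
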