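import Pool.Agent.helper70.FI.SpecQ1

set_option autoImplicit false

namespace Pool.Agent.FI

open Pool.Agent.helper58.DC Pool.Agent.DI Pool.Agent.GR Pool.Agent.OB

theorem QRS (hB3 : B3_stmt) (hB13 : B13_stmt) (hB2 : B2_stmt) : QRS_stmt := by
  classical
  intro G _ _ L K hKL χ' hχ'
  have := Fintype.ofFinite G
  obtain ⟨m, hm⟩ := hB3 L (K.subgroupOf L) (fun h : L => χ' h) hχ'.2
  obtain ⟨b1, b2, b3, b4, _⟩ := hB13 L G 0 L.subtype L.subtype_injective (K.subgroupOf L)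
  have hmap : (K.subgroupOf L).map L.subtype = K := by
    rw [Subgroup.subgroupOf_map_subtype]
    exact inf_eq_left.2 hKL
  rw [hmap] at b2 b3
  obtain ⟨m', hm'⟩ : ∃ m' : (G → ℂ) → ℕ, m' = fun φ => m (fun l : L => φ l) := ⟨_, rfl⟩
  have hext : ∀ ψ : L → ℂ, (fun l : L => ext0 L.subtype ψ l) = ψ := fun ψ => funext fun k => (b1 ψ).1 k
  have key : ∀ g ∈ K, χ' g = ∑ᶠ φ ∈ IrrOn K, (m' φ : ℂ) * φ g := by
    intro g hg
    have h1 := hm ⟨g, hKL hg⟩ (Subgroup.mem_subgroupOf.2 hg)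
    have h2 : ∑ᶠ ψ ∈ IrrOn (K.subgroupOf L), (m ψ : ℂ) * ψ ⟨g, hKL hg⟩ = ∑ᶠ φ ∈ IrrOn K, (m' φ : ℂ) * φ g := by
      refine finsum_mem_eq_of_bijOn (ext0 L.subtype) ⟨fun ψ hψ => (b2 ψ).1 hψ, fun ψ _ ψ' _ h => b4 ψ ψ' h, fun φ hφ => ?_⟩ ?_
      · obtain ⟨ψ, hψ⟩ := b3 φ hφ
        refine ⟨ψ, (b2 ψ).2 ?_, hψ⟩
        rw [hψ]
        exact hφ
      · intro ψ _
        rw [hm']
        show (m ψ : ℂ) * ψ ⟨g, hKL hg⟩ = (m (fun l : L => ext0 L.subtype ψ l) : ℂ) * ext0 L.subtype ψ g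
        rw [hext ψ]
        have h3 := (b1 ψ).1 ⟨g, hKL hg⟩
        rw [← h3]
        rfl
    rw [← h2]
    exact h1
  have hfin := (hB2 G K).1
  have hmt : ∀ ψ ∈ IrrOn K, mt K χ' ψ = m' ψ := by
    intro ψ hψ
    have hK0 : (Nat.card K : ℂ) ≠ 0 := by exact_mod_cast (Nat.card_pos).ne'
    unfold mt
    rw [div_eq_iff hK0]
    have e1 : ∑ᶠ x ∈ (K : Set G), χ' x * ψ x⁻¹ = ∑ᶠ x : G, (∑ φ ∈ hfin.toFinset, (m' φ : ℂ) * φ x) * ψ x⁻¹ := by
      refine finsum_congr fun x => ?_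
      by_cases hx : x ∈ K
      · rw [finsum_eq_if]
        have hx' : x ∈ (K : Set G) := hx
        rw [if_pos hx', key x hx, finsum_mem_eq_finite_toFinset_sum _ hfin]
      · rw [finsum_eq_if]
        have hx' : x ∉ (K : Set G) := hx
        rw [if_neg hx']
        have hx2 : x⁻¹ ∉ K := fun h => hx (by simpa using K.inv_mem h)
        rw [hψ.1 _ hx2, mul_zero]
    rw [e1, finsum_eq_sum_of_fintype]
    simp only [Finset.sum_mul]
    rw [Finset.sum_comm]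
    have e2 : ∀ φ ∈ hfin.toFinset, ∑ x : G, (m' φ : ℂ) * φ x * ψ x⁻¹ = if φ = ψ then (m' ψ : ℂ) * Nat.card K else 0 := by
      intro φ hφ
      have hφ' : φ ∈ IrrOn K := (hfin.mem_toFinset).1 hφ
      have h5 := ((hB2 G K).2 φ hφ').2.2.2.2 ψ hψ
      rw [finsum_eq_sum_of_fintype] at h5
      have e3 : ∑ x : G, (m' φ : ℂ) * φ x * ψ x⁻¹ = (m' φ : ℂ) * ∑ x : G, φ x * ψ x⁻¹ := by
        rw [Finset.mul_sum]
        exact Finset.sum_congr rfl fun x _ => by ring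
      rw [e3, h5]
      by_cases h6 : φ = ψ
      · rw [if_pos h6, if_pos h6, h6]
      · rw [if_neg h6, if_neg h6, mul_zero]
    rw [Finset.sum_congr rfl e2, Finset.sum_ite_eq' hfin.toFinset ψ, if_pos ((hfin.mem_toFinset).2 hψ)]
  refine ⟨fun ψ hψ => ⟨m' ψ, hmt ψ hψ⟩, fun g hg => ?_⟩
  rw [key g hg]
  refine finsum_mem_congr rfl fun φ hφ => ?_
  rw [hmt φ hφ]

end Pool.Agent.FI
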